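import Pool.Agent.X198.KS.Final

/-!
# Locally compact and locally pseudocompact king spaces are compact (MP_abcfaf_gt, Q1 and Q2)

Let `X` be a king space with at least one continuous weak selection.  If `X` is Tychonoff and
locally pseudocompact, or if `X` is Hausdorff and locally compact, then `X` is compact.
-/

open Set Filter Topology

namespace Pool.Agent.Results.MP_abcfaf_gt.KingCompact

universe u

/-- A weak selection on `X`: `φ a b`, for `a ≠ b`, is the point chosen from the two-element set
`{a, b}`; so it does not depend on the order of `a` and `b`, and it is `a` or `b`.  (The values on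
the diagonal play no role.) -/
def IsWeakSelection {X : Type u} (φ : X → X → X) : Prop :=
  ∀ a b, a ≠ b → φ a b = φ b a ∧ (φ a b = a ∨ φ a b = b)

/-- Continuity of a weak selection: for distinct `a, b` and every open `W` containing the chosen
point there are open `U ∋ a`, `V ∋ b` such that for all distinct `a' ∈ U`, `b' ∈ V` the chosen
point of `{a', b'}` lies in `W`. -/
def IsContinuousSelection {X : Type u} [TopologicalSpace X] (φ : X → X → X) : Prop :=
  ∀ a b, a ≠ b → ∀ W : Set X, IsOpen W → φ a b ∈ W →
    ∃ U V : Set X, IsOpen U ∧ IsOpen V ∧ a ∈ U ∧ b ∈ V ∧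
      ∀ a' ∈ U, ∀ b' ∈ V, a' ≠ b' → φ a' b' ∈ W

/-- `a →_φ b`: either `a = b`, or `a ≠ b` and `b` is the chosen point of `{a, b}`. -/
def Arrow {X : Type u} (φ : X → X → X) (a b : X) : Prop := a = b ∨ (a ≠ b ∧ φ a b = b)

/-- `z` is a `φ`-king: for every `x` some `y` satisfies `z →_φ y →_φ x`. -/
def IsKing {X : Type u} (φ : X → X → X) (z : X) : Prop := ∀ x, ∃ y, Arrow φ z y ∧ Arrow φ y x

/-- King spaces: every continuous weak selection has a king. -/
def IsKingSpace (X : Type u) [TopologicalSpace X] : Prop :=
  ∀ φ : X → X → X, IsWeakSelection φ → IsContinuousSelection φ → ∃ z, IsKing φ z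

/-- A subspace `K` of `X` is pseudocompact: every continuous real-valued function on it is
bounded. -/
def IsPseudocompact {X : Type u} [TopologicalSpace X] (K : Set X) : Prop :=
  ∀ f : K → ℝ, Continuous f → ∃ M : ℝ, ∀ x, |f x| ≤ M

/-- `X` is locally pseudocompact: every point has an open neighbourhood whose closure is
pseudocompact. -/
def IsLocallyPseudocompact (X : Type u) [TopologicalSpace X] : Prop :=
  ∀ x : X, ∃ U : Set X, IsOpen U ∧ x ∈ U ∧ IsPseudocompact (closure U)

theorem main {X : Type u} [TopologicalSpace X] [T35Space X] (hl : IsLocallyPseudocompact X)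
    (hsel : ∃ φ : X → X → X, IsWeakSelection φ ∧ IsContinuousSelection φ) (hK : IsKingSpace X) :
    CompactSpace X := by
  classical
  have hlfc : X198KS.LFC X := by
    intro x
    obtain ⟨U, hU, hxU, hp⟩ := hl x
    exact ⟨U, hU, hxU, X198KS.fc_of_pseudo hp⟩
  have hkings : X198KS.Kings X := by
    intro R hR
    obtain ⟨z, hz⟩ := hK (fun a b => if R a b then a else b) (by
      intro a b hab
      rcases hR.total a b hab with h1 | h1
      · have h2 := hR.asymm _ _ h1
        simp [h1, h2]
      · have h2 := hR.asymm _ _ h1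
        simp [h1, h2]) (by
      intro a b hab W hW hφ
      rcases hR.total a b hab with h1 | h1
      · obtain ⟨U, V, hU, hV, haU, hbV, hUV⟩ := hR.nhds h1
        simp only [if_pos h1] at hφ
        refine ⟨U ∩ W, V, hU.inter hW, hV, ⟨haU, hφ⟩, hbV, fun a' ha' b' hb' _ => ?_⟩
        simp only [if_pos (hUV a' ha'.1 b' hb')]
        exact ha'.2
      · obtain ⟨V, U, hV, hU, hbV, haU, hUV⟩ := hR.nhds h1
        simp only [if_neg (hR.asymm _ _ h1)] at hφ
        refine ⟨U, V ∩ W, hU, hV.inter hW, haU, ⟨hbV, hφ⟩, fun a' ha' b' hb' _ => ?_⟩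
        simp only [if_neg (hR.asymm _ _ (hUV b' hb'.1 a' ha'))]
        exact hb'.2)
    have key : ∀ a b, Arrow (fun a b => if R a b then a else b) a b → (b = a ∨ R b a) := by
      rintro a b (h1 | ⟨h1, h2⟩)
      · exact Or.inl h1.symm
      · right
        rcases hR.total a b h1 with h3 | h3
        · simp only [if_pos h3] at h2
          exact absurd h2 h1
        · exact h3
    refine ⟨z, fun x => ?_⟩
    obtain ⟨y, h1, h2⟩ := hz x
    exact ⟨y, key _ _ h1, key _ _ h2⟩
  obtain ⟨φ, hφ, hφc⟩ := hsel
  have hR : X198KS.IsT (fun a b : X => a ≠ b ∧ φ a b = a) := by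
    refine ⟨?_, ?_, ?_⟩
    · rintro a b ⟨h1, h2⟩ ⟨h3, h4⟩
      rw [← (hφ a b h1).1, h2] at h4
      exact h1 h4
    · intro a b hab
      rcases (hφ a b hab).2 with h1 | h1
      · exact Or.inl ⟨hab, h1⟩
      · exact Or.inr ⟨hab.symm, by rw [← (hφ a b hab).1]; exact h1⟩
    · rw [isOpen_iff_mem_nhds]
      rintro ⟨a, b⟩ ⟨hab, h1⟩
      simp only at hab h1
      obtain ⟨A, B, hA, hB, haA, hbB, hAB⟩ := t2_separation hab
      obtain ⟨U, V, hU, hV, haU, hbV, hUV⟩ := hφc a b hab A hA (by rw [h1]; exact haA)
      refine mem_of_superset (prod_mem_nhds ((hU.inter hA).mem_nhds ⟨haU, haA⟩)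
        ((hV.inter hB).mem_nhds ⟨hbV, hbB⟩)) ?_
      rintro ⟨a', b'⟩ ⟨⟨ha1, ha2⟩, ⟨hb1, hb2⟩⟩
      have hne : a' ≠ b' := by
        rintro rfl
        exact Set.disjoint_left.1 hAB ha2 hb2
      refine ⟨hne, ?_⟩
      rcases (hφ a' b' hne).2 with h2 | h2
      · exact h2
      · have h3 := hUV a' ha1 b' hb1 hne
        rw [h2] at h3
        exact absurd hb2 (Set.disjoint_left.1 hAB h3)
  exact hkings.compactSpace hR hlfc

/-- A king space with at least one continuous weak selection is compact as soon as it is Tychonoff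
and locally pseudocompact, or Hausdorff and locally compact. -/
theorem result {X : Type u} [TopologicalSpace X]
    (hX : (T35Space X ∧ IsLocallyPseudocompact X) ∨ (T2Space X ∧ LocallyCompactSpace X))
    (hsel : ∃ φ : X → X → X, IsWeakSelection φ ∧ IsContinuousSelection φ)
    (hK : IsKingSpace X) : CompactSpace X := by
  rcases hX with ⟨h1, h2⟩ | ⟨h1, h2⟩
  · exact main h2 hsel hK
  · have h3 : T35Space X := (OnePoint.isOpenEmbedding_coe (X := X)).isEmbedding.t35Space
    refine main ?_ hsel hK
    intro x
    obtain ⟨K, hKc, hxK⟩ := exists_compact_mem_nhds x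
    refine ⟨interior K, isOpen_interior, mem_interior_iff_mem_nhds.2 hxK, ?_⟩
    have hc : IsCompact (closure (interior K)) :=
      hKc.of_isClosed_subset isClosed_closure (closure_minimal interior_subset hKc.isClosed)
    intro f hf
    haveI : CompactSpace (closure (interior K)) := isCompact_iff_compactSpace.1 hc
    obtain ⟨M, hM⟩ := isCompact_univ.exists_bound_of_continuousOn (f := f) hf.continuousOn
    exact ⟨M, fun y => by simpa using hM y (mem_univ y)⟩

end Pool.Agent.Results.MP_abcfaf_gt.KingCompact
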